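import Pool.Agent.W875.GE.Spec

set_option autoImplicit false

namespace W947.GE

universe u

open TensorProduct

variable {K : Type u} [Field K] {A : Type u} [AddCommGroup A] [Module K A]

/-- contraction of the right factor -/
noncomputable def Tc (B : Type u) [AddCommGroup B] [Module K B] (φ : A →ₗ[K] K) :
    B ⊗[K] A →ₗ[K] B :=
  (TensorProduct.rid K B).toLinearMap ∘ₗ φ.lTensor B

lemma Tc_tmul (B : Type u) [AddCommGroup B] [Module K B] (φ : A →ₗ[K] K) (p : B) (q : A) :
    Tc B φ (p ⊗ₜ q) = φ q • p := by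
  simp [Tc]

lemma comm1 (φ : A →ₗ[K] K) (D : A →ₗ[K] A ⊗[K] A) (z : A ⊗[K] A) :
    D (Tc A φ z) = Tc (A ⊗[K] A) φ (D.rTensor A z) := by
  induction z with
  | zero => simp
  | tmul p q => simp [Tc_tmul]
  | add x y hx hy => simp only [map_add, hx, hy]

lemma comm2 (φ : A →ₗ[K] K) (y : (A ⊗[K] A) ⊗[K] A) :
    Tc (A ⊗[K] A) φ y = (Tc A φ).lTensor A (TensorProduct.assoc K A A A y) := by
  induction y with
  | zero => simp
  | tmul x r =>
    induction x with
    | zero => simp
    | tmul p q => simp [Tc_tmul]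
    | add x y hx hy => simp only [TensorProduct.add_tmul, map_add, hx, hy]
  | add x y hx hy => simp only [map_add, hx, hy]

theorem partFin : W875.GE.PartFin.{u} := by
  intro K _ A _ _ n D hD F
  classical
  let b := Module.Basis.ofVectorSpace K A
  have hrep : ∀ z : A ⊗[K] A, ∃ c : Module.Basis.ofVectorSpaceIndex K A →₀ A,
      c.sum (fun i m => m ⊗ₜ[K] b i) = z := fun z => TensorProduct.eq_repr_basis_right b z
  choose c hc using hrep
  let S : Set A := (F : Set A) ∪
    ⋃ i : Fin n, ⋃ a ∈ F, ((c (D i a)).support.image (c (D i a)) : Finset A)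
  have hSfin : S.Finite := by
    apply Set.Finite.union (Finset.finite_toSet F)
    apply Set.finite_iUnion
    intro i
    apply Set.Finite.biUnion (Finset.finite_toSet F)
    intro a _
    exact Finset.finite_toSet _
  let V : Submodule K A := Submodule.span K S
  have : Module.Finite K V := by
    exact Module.Finite.iff_fg.mpr (Submodule.fg_span hSfin)
  let W : Submodule K (A ⊗[K] A) := Submodule.span K {z | ∃ p ∈ V, ∃ a : A, z = p ⊗ₜ[K] a}
  have hWmem : ∀ p ∈ V, ∀ a : A, p ⊗ₜ[K] a ∈ W := fun p hp a =>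
    Submodule.subset_span ⟨p, hp, a, rfl⟩
  have hcV : ∀ i : Fin n, ∀ a ∈ F, ∀ m, c (D i a) m ∈ V := by
    intro i a ha m
    by_cases hm : c (D i a) m = 0
    · rw [hm]; exact V.zero_mem
    · apply Submodule.subset_span
      right
      simp only [Set.mem_iUnion]
      refine ⟨i, a, ha, ?_⟩
      rw [Finset.mem_coe]
      exact Finset.mem_image_of_mem _ (Finsupp.mem_support_iff.mpr hm)
  -- D k a
  have hF : ∀ k : Fin n, ∀ a ∈ F, D k a ∈ W := by
    intro k a ha
    rw [← hc (D k a)]
    exact Submodule.sum_mem _ (fun m _ => hWmem _ (hcV k a ha m) _)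
  have hcoef : ∀ i : Fin n, ∀ a, ∀ m, c (D i a) m = Tc A (b.coord m) (D i a) := by
    intro i a m
    conv_rhs => rw [← hc (D i a)]
    rw [Finsupp.sum, map_sum]
    simp only [Tc_tmul, Module.Basis.coord_apply, Module.Basis.repr_self]
    rw [Finset.sum_eq_single m]
    · simp
    · intro m' _ hne
      rw [Finsupp.single_eq_of_ne (by first | exact hne | exact hne.symm), zero_smul]
    · intro hm
      rw [Finsupp.notMem_support_iff.mp hm, smul_zero]
  have hl : ∀ (T : A →ₗ[K] A) (z : A ⊗[K] A), z ∈ W → T.lTensor A z ∈ W := by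
    intro T z hz
    induction hz using Submodule.span_induction with
    | mem x hx =>
      obtain ⟨p, hp, a, rfl⟩ := hx
      rw [LinearMap.lTensor_tmul]
      exact hWmem p hp _
    | zero => simp
    | add x y _ _ hx hy => rw [map_add]; exact W.add_mem hx hy
    | smul t x _ hx => rw [map_smul]; exact W.smul_mem t hx
  have hcD : ∀ i k : Fin n, ∀ a ∈ F, ∀ m, D k (c (D i a) m) ∈ W := by
    intro i k a ha m
    rw [hcoef, comm1, comm2]
    have h1 := LinearMap.congr_fun (hD i k) a
    simp only [LinearMap.comp_apply, LinearEquiv.coe_coe] at h1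
    rw [h1, ← LinearMap.lTensor_comp_apply]
    exact hl _ _ (hF k a ha)
  have hDV : ∀ k : Fin n, ∀ x ∈ V, D k x ∈ W := by
    intro k x hx
    induction hx using Submodule.span_induction with
    | mem x hx =>
      rcases hx with hx | hx
      · exact hF k x hx
      · simp only [Set.mem_iUnion] at hx
        obtain ⟨i, a, ha, hx⟩ := hx
        rw [Finset.mem_coe, Finset.mem_image] at hx
        obtain ⟨m, _, rfl⟩ := hx
        exact hcD i k a ha m
    | zero => rw [map_zero]; exact W.zero_mem
    | add x y _ _ hx hy => rw [map_add]; exact W.add_mem hx hy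
    | smul t x _ hx => rw [map_smul]; exact W.smul_mem t hx
  let bV := Module.finBasis K V
  have hrepV : ∀ x : V, (x : A) = ∑ l, bV.repr x l • ((bV l : V) : A) := by
    intro x
    have h := congrArg V.subtype (bV.sum_repr x)
    rw [map_sum] at h
    simp only [map_smul, Submodule.subtype_apply] at h
    exact h.symm
  have hW : ∀ z ∈ W, ∃ q : Fin (Module.finrank K V) → A,
      z = ∑ l, ((bV l : V) : A) ⊗ₜ[K] q l := by
    intro z hz
    induction hz using Submodule.span_induction with
    | mem x hx =>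
      obtain ⟨p, hp, a, rfl⟩ := hx
      refine ⟨fun l => bV.repr ⟨p, hp⟩ l • a, ?_⟩
      have h := hrepV ⟨p, hp⟩
      simp only at h
      conv_lhs => rw [h]
      rw [TensorProduct.sum_tmul]
      exact Finset.sum_congr rfl (fun l _ => by rw [TensorProduct.smul_tmul])
    | zero => exact ⟨0, by simp⟩
    | add x y _ _ hx hy =>
      obtain ⟨q1, h1⟩ := hx
      obtain ⟨q2, h2⟩ := hy
      refine ⟨q1 + q2, ?_⟩
      rw [h1, h2, ← Finset.sum_add_distrib]
      exact Finset.sum_congr rfl (fun l _ => by rw [Pi.add_apply, TensorProduct.tmul_add])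
    | smul t x _ hx =>
      obtain ⟨q1, h1⟩ := hx
      refine ⟨t • q1, ?_⟩
      rw [h1, Finset.smul_sum]
      exact Finset.sum_congr rfl (fun l _ => by rw [Pi.smul_apply, TensorProduct.tmul_smul])
  have hq : ∀ (j : Fin n) (k : Fin (Module.finrank K V)), ∃ q : Fin (Module.finrank K V) → A,
      D j ((bV k : V) : A) = ∑ l, ((bV l : V) : A) ⊗ₜ[K] q l := fun j k =>
    hW _ (hDV j _ (bV k).2)
  choose q hq using hq
  refine ⟨Module.finrank K V, fun l => ((bV l : V) : A), q, ?_, ?_, hq⟩
  · exact bV.linearIndependent.map' V.subtype (Submodule.ker_subtype V)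
  · intro a ha
    have haV : a ∈ V := Submodule.subset_span (Or.inl ha)
    have h := hrepV ⟨a, haV⟩
    simp only at h
    rw [h]
    exact Submodule.sum_mem _ (fun l _ => Submodule.smul_mem _ _ (Submodule.subset_span ⟨l, rfl⟩))

end W947.GE

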